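import Pool.Agent.H61.KW.TC

/-!
# Kuiper board KW, row ALT: all essential faces are simplicial
-/

set_option autoImplicit false

open Topology Set
open Pool.Agent.H59 Pool.Agent.H64.LB Pool.Agent.H61.KU Pool.Agent.H61.KV Pool.Agent.H61.KW

namespace Pool.Agent.H66.KW.ALT

theorem pf_ALT (h : T_R6Z) (h2 : T_GAM) (h3 : T_DSC) (h4 : T_TFT) (h5 : T_SM2) : T_ALT := by
  intro V _ _ _ m K S q hq
  by_contra hns
  have hC := K.cc
  have hqC : q ∈ Cn m := K.mem q hq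
  obtain ⟨a, z, hp, h6⟩ := h V m K S q hq hns
  obtain ⟨g, hg⟩ := K.tr q hq
  obtain ⟨hd, hall⟩ := h2 V m K q g a z hq hg hp h6
  have hzC : z ∈ Cn m := hp.ex.1
  have haC : a ∈ Cn m := hp.ds.1
  have haz : a + z ∈ Cn m := hC.add _ haC _ hzC
  have hzq : z ∈ Fc (Cn m) q := tra hC hqC hp.mem (right_fc hC haC hzC)
  have hgz := h4 V m K q g z hq hg hzq hp.ex.2.1
  refine h3 V m K (g + z) a z hd hall hgz.2.1 (h6 g hg) hp.rk3 ?_ hp.ex
    (right_fc hC hg.mem hzC) (K.congr q (a + z) hq hp.mem hp.mem')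
  intro hs
  exact hns ((h5 V (Cn m) q hC hqC).2.2.1 a z hp hs)

end Pool.Agent.H66.KW.ALT
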