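import Pool.Agent.H61.KW.TC

/-!
# Kuiper board KW, row G5N: five extreme rays
-/

set_option autoImplicit false

open Topology Set
open Pool.Agent.H59 Pool.Agent.H64.LB Pool.Agent.H61.KU Pool.Agent.H61.KV Pool.Agent.H61.KW

namespace Pool.Agent.H66.KW.G5N

theorem pf_G5N (h : T_DSB) : T_G5N := by
  intro V _ _ _ C b₁ b₂ z y t f hC e1 e2 ez ey et d12 dzy dbz dst hf hfs hsf
  have hA : b₁ + b₂ ∈ C := hC.add _ e1.1 _ e2.1
  have hD : z + y ∈ C := hC.add _ ez.1 _ ey.1
  have hS : (b₁ + b₂) + (z + y) ∈ C := hC.add _ hA _ hD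
  have hT : ((b₁ + b₂) + (z + y)) + t ∈ C := hC.add _ hS _ et.1
  -- membership in the partial sums
  have m1 : b₁ ∈ Fc C (b₁ + b₂) := left_fc hC e1.1 e2.1
  have m2 : b₂ ∈ Fc C (b₁ + b₂) := right_fc hC e1.1 e2.1
  have mz : z ∈ Fc C (z + y) := left_fc hC ez.1 ey.1
  have my : y ∈ Fc C (z + y) := right_fc hC ez.1 ey.1
  have mA : b₁ + b₂ ∈ Fc C ((b₁ + b₂) + (z + y)) := left_fc hC hA hD
  have mD : z + y ∈ Fc C ((b₁ + b₂) + (z + y)) := right_fc hC hA hD
  have n1 : b₁ ∈ Fc C ((b₁ + b₂) + (z + y)) := tra hC hS mA m1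
  have n2 : b₂ ∈ Fc C ((b₁ + b₂) + (z + y)) := tra hC hS mA m2
  have nz : z ∈ Fc C ((b₁ + b₂) + (z + y)) := tra hC hS mD mz
  have ny : y ∈ Fc C ((b₁ + b₂) + (z + y)) := tra hC hS mD my
  have mS : (b₁ + b₂) + (z + y) ∈ Fc C (((b₁ + b₂) + (z + y)) + t) := left_fc hC hS et.1
  have mt : t ∈ Fc C (((b₁ + b₂) + (z + y)) + t) := right_fc hC hS et.1
  have hfc : Fc C f = Fc C (((b₁ + b₂) + (z + y)) + t) := fc_eq hC hT hfs hsf
  refine ⟨?_, ?_, ?_, ?_⟩
  · rw [Fintype.linearIndependent_iff]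
    intro g hg
    have hg' : g 0 • b₁ + g 1 • z + g 2 • y + g 3 • b₂ + g 4 • t = 0 := by
      simpa [Fin.sum_univ_five] using hg
    have g4 : g 4 • t = 0 := by
      refine dst.2.2.1 _ ?_ (Submodule.smul_mem _ _ (self_sp hC et.1))
      have h1 : g 4 • t = -(g 0 • b₁ + g 1 • z + g 2 • y + g 3 • b₂) := by
        rw [eq_neg_iff_add_eq_zero, add_comm]
        exact hg'
      rw [h1]
      refine Submodule.neg_mem _ (Submodule.add_mem _ (Submodule.add_mem _ (Submodule.add_mem _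
        ?_ ?_) ?_) ?_)
      · exact Submodule.smul_mem _ _ (mem_sp n1)
      · exact Submodule.smul_mem _ _ (mem_sp nz)
      · exact Submodule.smul_mem _ _ (mem_sp ny)
      · exact Submodule.smul_mem _ _ (mem_sp n2)
    have hg2 : (g 0 • b₁ + g 3 • b₂) + (g 1 • z + g 2 • y) = 0 := by
      rw [g4, add_zero] at hg'
      rw [← hg']
      abel
    have gb : g 0 • b₁ + g 3 • b₂ = 0 := by
      refine dbz.2.2.1 _ ?_ ?_
      · exact Submodule.add_mem _ (Submodule.smul_mem _ _ (mem_sp m1))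
          (Submodule.smul_mem _ _ (mem_sp m2))
      · rw [eq_neg_of_add_eq_zero_left hg2]
        exact Submodule.neg_mem _ (Submodule.add_mem _ (Submodule.smul_mem _ _ (mem_sp mz))
          (Submodule.smul_mem _ _ (mem_sp my)))
    have gz : g 1 • z + g 2 • y = 0 := by
      rw [gb, zero_add] at hg2
      exact hg2
    have g0 : g 0 • b₁ = 0 := by
      refine d12.2.2.1 _ (Submodule.smul_mem _ _ (self_sp hC e1.1)) ?_
      rw [eq_neg_of_add_eq_zero_left gb]
      exact Submodule.neg_mem _ (Submodule.smul_mem _ _ (self_sp hC e2.1))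
    have g3 : g 3 • b₂ = 0 := by
      rw [g0, zero_add] at gb
      exact gb
    have g1 : g 1 • z = 0 := by
      refine dzy.2.2.1 _ (Submodule.smul_mem _ _ (self_sp hC ez.1)) ?_
      rw [eq_neg_of_add_eq_zero_left gz]
      exact Submodule.neg_mem _ (Submodule.smul_mem _ _ (self_sp hC ey.1))
    have g2 : g 2 • y = 0 := by
      rw [g1, zero_add] at gz
      exact gz
    have k0 := (smul_eq_zero.1 g0).resolve_right e1.2.1
    have k1 := (smul_eq_zero.1 g1).resolve_right ez.2.1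
    have k2 := (smul_eq_zero.1 g2).resolve_right ey.2.1
    have k3 := (smul_eq_zero.1 g3).resolve_right e2.2.1
    have k4 := (smul_eq_zero.1 g4).resolve_right et.2.1
    intro i
    fin_cases i
    · exact k0
    · exact k1
    · exact k2
    · exact k3
    · exact k4
  · intro i
    fin_cases i
    · exact e1
    · exact ez
    · exact ey
    · exact e2
    · exact et
  · rw [hfc]
    intro i
    fin_cases i
    · exact tra hC hT mS n1
    · exact tra hC hT mS nz
    · exact tra hC hT mS ny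
    · exact tra hC hT mS n2
    · exact mt
  · intro r hr
    rw [hfc] at hr
    obtain ⟨u, hu, v, hv, rfl⟩ := dst.2.2.2 r hr
    obtain ⟨u1, hu1, u2, hu2, rfl⟩ := dbz.2.2.2 u hu
    obtain ⟨p1, hp1, p2, hp2, rfl⟩ := d12.2.2.2 u1 hu1
    obtain ⟨q1, hq1, q2, hq2, rfl⟩ := dzy.2.2.2 u2 hu2
    obtain ⟨c0, k0, rfl⟩ := ex_mem hC e1 hp1
    obtain ⟨c3, k3, rfl⟩ := ex_mem hC e2 hp2
    obtain ⟨c1, k1, rfl⟩ := ex_mem hC ez hq1
    obtain ⟨c2, k2, rfl⟩ := ex_mem hC ey hq2
    obtain ⟨c4, k4, rfl⟩ := ex_mem hC et hv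
    refine ⟨![c0, c1, c2, c3, c4], ?_, ?_⟩
    · intro i
      fin_cases i
      · exact k0
      · exact k1
      · exact k2
      · exact k3
      · exact k4
    · simp only [Fin.sum_univ_five]
      simp
      abel

end Pool.Agent.H66.KW.G5N
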