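import Pool.Agent.H61.KW.TC

/-!
# Kuiper board KW, row TRC: a small face of rank 3 and a small extreme ray outside of it
-/

set_option autoImplicit false

open Topology Set
open Pool.Agent.H59 Pool.Agent.H64.LB Pool.Agent.H61.KU Pool.Agent.H61.KV Pool.Agent.H61.KW

namespace Pool.Agent.H66.KW.TRC

theorem pf_TRC (h : T_F5U) (h2 : T_SML) (h3 : T_A3F) (h4 : Pool.Agent.H61.KW.T_TWO) (h5 : T_DSB) (h6 : T_GNF)
    (h7 : T_SMD) (h8 : T_SM2) : T_TRC := by
  intro V _ _ _ m q g s t hR hs3 ht hs htq hts hgs hgt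
  have K := hR.kit
  have hC := K.cc
  have hq : q ∈ Cn m := K.mem q hR.ef
  have hg : g ∈ Cn m := hR.tf.mem
  have hsC : s ∈ Cn m := mem_C hs
  have htC : t ∈ Cn m := ht.1
  -- `q` is in the face of `s + t`
  have hst : s + t ∈ Fc (Cn m) q := add_fc hC hq hs htq
  have hqst : q ∈ Fc (Cn m) (s + t) := by
    refine of_rk hC hq hst ?_
    have := rk_add_ex hC hsC htC hts
    rw [K.rk4 q hR.ef]
    omega
  obtain ⟨β, z, y, hβ, hz, hy, ez, ey, d1, d2, hbg, hgb, rkb, rkbt, d3, ef1, ef2⟩ :=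
    h V m K q g t hR.ef hR.tf ht htq hgt
  have hβC : β ∈ Cn m := mem_C hβ
  have rkβ : rk (Cn m) β = 2 := by
    have := hR.rk4
    omega
  obtain ⟨i, i', ei, ei', -, hii, -⟩ := h4 V (Cn m) β hC hβC rkβ
  have hiβ : i ∈ Fc (Cn m) β := ((add_iff hC hβC ei.1 ei'.1).1 hii).1
  have hbt : β + t ∈ Cn m := hC.add _ hβC _ htC
  have hP : (β + t) + z ∈ Cn m := hC.add _ hbt _ ez.1
  have hβP : β ∈ Fc (Cn m) ((β + t) + z) :=
    tra hC hP (left_fc hC hbt ez.1) (left_fc hC hβC htC)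
  have htP : t ∈ Fc (Cn m) ((β + t) + z) :=
    tra hC hP (left_fc hC hbt ez.1) (right_fc hC hβC htC)
  have hzP : z ∈ Fc (Cn m) ((β + t) + z) := right_fc hC hbt ez.1
  have hiP : i ∈ Fc (Cn m) ((β + t) + z) := tra hC hP hβP hiβ
  -- the direct sum
  have dgs : Dsum (Cn m) g s := (h2 V m q g hR).2.1 s hs (by rw [hgs, hs3])
  have b1 := h5 V (Cn m) g s hC dgs
  have hss : s ∈ Fc (Cn m) s := self hC hsC
  have dys : Dsum (Cn m) y s := b1.2.2.1 y hy s hss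
  have rkys : rk (Cn m) (y + s) = 4 := by
    rw [(h5 V (Cn m) y s hC dys).1, ex_rk hC ey, hs3]
  have hyi : y + i ∈ Fc (Cn m) g := add_fc hC hg hy (tra hC hg hβ hiβ)
  have dyis : Dsum (Cn m) (y + i) s := b1.2.2.1 (y + i) hyi s hss
  have diy : Dsum (Cn m) i y :=
    (h5 V (Cn m) β (z + y) hC d1).2.2.1 i hiβ y (right_fc hC ez.1 ey.1)
  have rkyi : rk (Cn m) (y + i) = 2 := by
    rw [add_comm, (h5 V (Cn m) i y hC diy).1, ex_rk hC ei, ex_rk hC ey]
  have rkyis : rk (Cn m) ((y + s) + i) = 5 := by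
    have h9 : (y + s) + i = (y + i) + s := by abel
    rw [h9, (h5 V (Cn m) (y + i) s hC dyis).1, rkyi, hs3]
  have hys : y + s ∈ Cn m := hC.add _ ey.1 _ hsC
  -- transversality
  have hsum : ((β + t) + z) + (y + s) ∈ Cn m := hC.add _ hP _ hys
  have l1 : (β + t) + z ∈ Fc (Cn m) (((β + t) + z) + (y + s)) := left_fc hC hP hys
  have l2 : y + s ∈ Fc (Cn m) (((β + t) + z) + (y + s)) := right_fc hC hP hys
  have l3 : y ∈ Fc (Cn m) (((β + t) + z) + (y + s)) :=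
    tra hC hsum l2 (left_fc hC ey.1 hsC)
  have l4 : s ∈ Fc (Cn m) (((β + t) + z) + (y + s)) :=
    tra hC hsum l2 (right_fc hC ey.1 hsC)
  have hov : Ov (Cn m) ((β + t) + z) (y + s) := by
    refine ov_of hR.tf.ov ?_ ?_
    · exact tra hC hsum (add_fc hC hsum l4 (tra hC hsum l1 htP)) hqst
    · exact tra hC hsum (add_fc hC hsum (tra hC hsum l1 hβP)
        (add_fc hC hsum (tra hC hsum l1 hzP) l3)) hgb
  have hsmp : Smp (Cn m) 4 (y + s) := by
    by_cases hM : Fc (Cn m) (y + s) ⊆ Mh m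
    · have htf : Tf m ((β + t) + z) (y + s) :=
        K.ovf _ _ ef1 (hM (self hC hys)) hov
      obtain ⟨β', z', y', hβ', hz', hy', ez', ey', d1', d2', hbg', hgb', rkb', -⟩ :=
        h V m K ((β + t) + z) (y + s) i ef1 htf ei hiP rkyis
      have rkβ' : rk (Cn m) β' = 2 := by omega
      have hβ'C : β' ∈ Cn m := mem_C hβ'
      have s1 : Smp (Cn m) 2 β' := (h8 V (Cn m) β' hC hβ'C).2.1 rkβ'
      have s2 : Smp (Cn m) 1 z' := (h8 V (Cn m) z' hC ez'.1).1 ez'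
      have s3 : Smp (Cn m) 1 y' := (h8 V (Cn m) y' hC ey'.1).1 ey'
      have hzy : z' + y' ∈ Cn m := hC.add _ ez'.1 _ ey'.1
      have s4 : Smp (Cn m) 2 (z' + y') :=
        h7 V (Cn m) z' y' (z' + y') 1 1 hC d2' s2 s3 hzy (self hC hzy) (self hC hzy)
      exact h7 V (Cn m) β' (z' + y') (y + s) 2 2 hC d1' s1 s4 hys hgb' hbg'
    · have hef : Ef m (y + s) := K.ef _ hys rkys hM
      exact h3 V m K hR.star (y + s) ((β + t) + z) hef ef1 (ov_symm hov)
  obtain ⟨x, hx⟩ := hsmp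
  have h10 := (h6 V (Cn m) (y + s) 4 x hC hys hx).2.2.2.2.2 s (right_fc hC ey.1 hsC)
  rwa [hs3] at h10

end Pool.Agent.H66.KW.TRC
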